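import Pool.Agent.H24.MR.Interface

set_option autoImplicit false

open Finset Filter Topology

namespace Pool.Agent.H59.MR

open Pool.Agent.H24.MR

open Classical in
/-- The counting ratio of `A` in `[0, n)`. -/
noncomputable def ratio (A : Set ℕ) (n : ℕ) : ℝ :=
  (((Finset.range n).filter (fun m => m ∈ A)).card : ℝ) / (n : ℝ)

lemma ratio_nonneg (A : Set ℕ) (n : ℕ) : 0 ≤ ratio A n := by
  unfold ratio; positivity

lemma ratio_le_one (A : Set ℕ) (n : ℕ) : ratio A n ≤ 1 := by
  classical
  unfold ratio
  rcases Nat.eq_zero_or_pos n with h | h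
  · subst h; simp
  · rw [div_le_one (by positivity)]
    have := Finset.card_filter_le (Finset.range n) (fun m => m ∈ A)
    rw [Finset.card_range] at this
    exact_mod_cast this

variable {U : Ultrafilter ℕ} {N : ℕ → ℕ}

lemma tendsto_dens (U : Ultrafilter ℕ) (N : ℕ → ℕ) (A : Set ℕ) :
    Tendsto (fun k => ratio A (N k)) (U : Filter ℕ) (𝓝 (dens U N A)) := by
  have hc : IsCompact (Set.Icc (0 : ℝ) 1) := isCompact_Icc
  have hle : ((U.map (fun k => ratio A (N k)) : Ultrafilter ℝ) : Filter ℝ) ≤
      𝓟 (Set.Icc (0 : ℝ) 1) := by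
    rw [le_principal_iff, Ultrafilter.mem_coe, Ultrafilter.mem_map]
    apply Filter.univ_mem'
    intro k
    exact ⟨ratio_nonneg _ _, ratio_le_one _ _⟩
  obtain ⟨x, -, hx⟩ := hc.ultrafilter_le_nhds _ hle
  have ht : Tendsto (fun k => ratio A (N k)) (U : Filter ℕ) (𝓝 x) := hx
  have : dens U N A = x := by
    unfold Pool.Agent.H24.MR.dens
    exact ht.limUnder_eq
  rw [this]
  exact ht

lemma dens_eq_of_tendsto {A : Set ℕ} {x : ℝ}
    (h : Tendsto (fun k => ratio A (N k)) (U : Filter ℕ) (𝓝 x)) : dens U N A = x :=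
  tendsto_nhds_unique (tendsto_dens U N A) h

lemma finAddInv_dens (hN : Tendsto N (U : Filter ℕ) atTop) : FinAddInv (dens U N) where
  nonneg A := ge_of_tendsto' (tendsto_dens U N A) (fun k => ratio_nonneg _ _)
  univ := by
    apply dens_eq_of_tendsto
    apply tendsto_const_nhds.congr'
    filter_upwards [hN.eventually (eventually_gt_atTop 0)] with k hk
    unfold ratio
    have e : (@Finset.filter ℕ (fun m => m ∈ Set.univ) (fun a => Classical.propDecidable _)
        (Finset.range (N k))) = Finset.range (N k) := by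
      ext x
      simp
    rw [e, Finset.card_range, div_self (by positivity)]
  add A B hAB := by
    classical
    apply dens_eq_of_tendsto
    have := (tendsto_dens U N A).add (tendsto_dens U N B)
    refine this.congr (fun k => ?_)
    unfold ratio
    rw [← add_div, ← Nat.cast_add, ← Finset.card_union_of_disjoint]
    · congr 2
      congr 1
      ext m
      simp only [Finset.mem_union, Finset.mem_filter, Finset.mem_range, Set.mem_union]
      tauto
    · rw [Finset.disjoint_left]
      intro m hm hm'
      simp only [Finset.mem_filter] at hm hm'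
      exact (Set.disjoint_left.1 hAB) hm.2 hm'.2
  shift A := by
    classical
    apply dens_eq_of_tendsto
    have h0 : Tendsto (fun k => (1 : ℝ) / (N k : ℝ)) (U : Filter ℕ) (𝓝 0) :=
      tendsto_one_div_atTop_nhds_zero_nat.comp hN
    have hd : Tendsto (fun k => ratio {n | n + 1 ∈ A} (N k) - ratio A (N k))
        (U : Filter ℕ) (𝓝 0) := by
      refine squeeze_zero_norm (fun k => ?_) h0
      rw [Real.norm_eq_abs]
      unfold ratio
      rw [← sub_div, abs_div, Nat.abs_cast]
      apply div_le_div_of_nonneg_right _ (Nat.cast_nonneg _)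
      have e1 : (((Finset.range (N k)).filter (fun m => m ∈ {n | n + 1 ∈ A})).card : ℝ) =
          ∑ m ∈ Finset.range (N k), (if m + 1 ∈ A then (1 : ℝ) else 0) := by
        rw [Finset.card_filter]; push_cast; rfl
      have e2 : (((Finset.range (N k)).filter (fun m => m ∈ A)).card : ℝ) =
          ∑ m ∈ Finset.range (N k), (if m ∈ A then (1 : ℝ) else 0) := by
        rw [Finset.card_filter]; push_cast; rfl
      rw [e1, e2]
      have e3 := Finset.sum_range_succ (fun m => (if m ∈ A then (1 : ℝ) else 0)) (N k)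
      have e4 := Finset.sum_range_succ' (fun m => (if m ∈ A then (1 : ℝ) else 0)) (N k)
      rw [e4] at e3
      have i1 : (0 : ℝ) ≤ (if N k ∈ A then (1 : ℝ) else 0) := by split_ifs <;> norm_num
      have i2 : (if N k ∈ A then (1 : ℝ) else 0) ≤ 1 := by split_ifs <;> norm_num
      have i3 : (0 : ℝ) ≤ (if 0 ∈ A then (1 : ℝ) else 0) := by split_ifs <;> norm_num
      have i4 : (if 0 ∈ A then (1 : ℝ) else 0) ≤ 1 := by split_ifs <;> norm_num
      rw [abs_le]
      constructor <;> linarith
    have := (tendsto_dens U N A).add hd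
    simpa using this

/-! Consequences of finite additivity and invariance. -/

variable {μ : Set ℕ → ℝ}

lemma fai_mono (h : FinAddInv μ) {A B : Set ℕ} (hAB : A ⊆ B) : μ A ≤ μ B := by
  have h1 := h.add A (B \ A) disjoint_sdiff_self_right
  rw [Set.union_sdiff_cancel hAB] at h1
  have := h.nonneg (B \ A)
  linarith

lemma fai_union_le (h : FinAddInv μ) (A B : Set ℕ) : μ (A ∪ B) ≤ μ A + μ B := by
  have h1 := h.add A (B \ A) disjoint_sdiff_self_right
  rw [Set.union_sdiff_self] at h1
  have := fai_mono h (Set.sdiff_subset : B \ A ⊆ B)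
  linarith

lemma fai_shift' (h : FinAddInv μ) (s : ℕ) (A : Set ℕ) : μ {n | n + s ∈ A} = μ A := by
  induction s with
  | zero => simp
  | succ s ih =>
    have h1 := h.shift {n | n + s ∈ A}
    rw [ih] at h1
    rw [← h1]
    congr 1
    ext n
    simp only [Set.mem_ofPred_eq]
    rw [show n + (s + 1) = n + 1 + s by ring]

lemma fai_empty (h : FinAddInv μ) : μ ∅ = 0 := by
  have := h.add ∅ ∅ (by simp)
  simp only [Set.union_self] at this
  linarith

lemma fai_sum_eq (h : FinAddInv μ) {ι : Type*} (s : Finset ι) (A : ι → Set ℕ)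
    (hA : ∀ i ∈ s, ∀ j ∈ s, i ≠ j → Disjoint (A i) (A j)) :
    ∑ i ∈ s, μ (A i) = μ {n | ∃ i ∈ s, n ∈ A i} := by
  classical
  induction s using Finset.induction_on with
  | empty => simp [fai_empty h]
  | insert a s ha ih =>
    rw [Finset.sum_insert ha, ih (fun i hi j hj hij =>
      hA i (Finset.mem_insert_of_mem hi) j (Finset.mem_insert_of_mem hj) hij), ← h.add]
    · congr 1
      ext n
      simp
    · rw [Set.disjoint_left]
      rintro n hn ⟨i, hi, hni⟩
      have hne : a ≠ i := by rintro rfl; exact ha hi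
      exact (Set.disjoint_left.1 (hA a (Finset.mem_insert_self _ _) i
        (Finset.mem_insert_of_mem hi) hne)) hn hni

end Pool.Agent.H59.MR
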