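import Pool.Agent.H24.MR.InterfaceMR

set_option autoImplicit false

open Finset Filter

namespace Pool.Agent.H59.MR

open Pool.Agent.H24.MR

/-! ### Elementary facts -/

lemma tent_nonneg (u : ℝ) : 0 ≤ tent u := le_max_left _ _

lemma tent_le_one (u : ℝ) : tent u ≤ 1 := by
  unfold tent
  apply max_le (by norm_num)
  have := abs_nonneg u
  linarith

lemma tent_eq_zero {u : ℝ} (h : 1 ≤ |u|) : tent u = 0 := by
  unfold tent
  apply max_eq_left
  linarith

lemma tent_lip (u v : ℝ) : |tent u - tent v| ≤ |u - v| := by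
  unfold tent
  have h1 := abs_max_sub_max_le_abs (1 - |u|) (1 - |v|) 0
  rw [max_comm 0 (1 - |u|), max_comm 0 (1 - |v|)]
  refine h1.trans ?_
  have : 1 - |u| - (1 - |v|) = |v| - |u| := by ring
  rw [this, abs_sub_comm u v]
  exact abs_abs_sub_abs_le_abs_sub v u

lemma nit_mul {m n : ℕ} (hm : m ≠ 0) (hn : n ≠ 0) (t : ℝ) :
    nit (m * n) t = nit m t * nit n t := by
  unfold nit
  rw [← Complex.exp_add]
  congr 1
  have hm' : (m : ℝ) ≠ 0 := by exact_mod_cast hm
  have hn' : (n : ℝ) ≠ 0 := by exact_mod_cast hn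
  rw [Nat.cast_mul, Real.log_mul hm' hn']
  push_cast
  ring

lemma norm_nit (n : ℕ) (t : ℝ) : ‖nit n t‖ = 1 := by
  unfold nit
  have : -((t * Real.log n : ℝ) : ℂ) * Complex.I = ((-(t * Real.log n) : ℝ) : ℂ) * Complex.I := by
    push_cast; ring
  rw [this, Complex.norm_exp_ofReal_mul_I]

lemma continuous_nit (n : ℕ) : Continuous (nit n) := by
  unfold nit
  fun_prop

lemma lam_mul {m n : ℕ} (hm : m ≠ 0) (hn : n ≠ 0) : lam (m * n) = lam m * lam n := by
  unfold lam
  rw [ArithmeticFunction.cardFactors_mul hm hn, pow_add]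

lemma lam_prime {p : ℕ} (hp : p.Prime) : lam p = -1 := by
  unfold lam
  rw [ArithmeticFunction.cardFactors_apply_prime hp, pow_one]

lemma abs_lam (n : ℕ) : |lam n| = 1 := by
  unfold lam
  rw [abs_pow, abs_neg, abs_one, one_pow]

lemma abs_fW_le (W b n : ℕ) : |fW W b n| ≤ 1 := by
  unfold fW
  split_ifs
  · exact (abs_lam n).le
  · simp

lemma fW_prime_mul {W b p m : ℕ} (hp : p.Prime) (h1 : p ≡ 1 [MOD W]) (hm : m ≠ 0) :
    fW W b (p * m) = -fW W b m := by
  unfold fW
  have hiff : p * m ≡ b [MOD W] ↔ m ≡ b [MOD W] := by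
    have h2 : p * m ≡ m [MOD W] := by simpa using h1.mul_right m
    exact ⟨fun h => h2.symm.trans h, fun h => h2.trans h⟩
  by_cases hb : m ≡ b [MOD W]
  · rw [if_pos (hiff.2 hb), if_pos hb, lam_mul hp.ne_zero hm, lam_prime hp]
    ring
  · rw [if_neg (fun h => hb (hiff.1 h)), if_neg hb]
    simp

/-- The sum defining `FX` may be extended. -/
lemma FX_eq {W b : ℕ} {Y : ℝ} (hY : 0 < Y) {M : ℕ} (hM : Y * Real.exp 1 ≤ M + 1) (t : ℝ) :
    FX W b Y t = ∑ n ∈ Finset.Icc 1 M,
      ((fW W b n / n * tent (Real.log n - Real.log Y) : ℝ) : ℂ) * nit n t := by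
  unfold FX
  have hvan : ∀ n : ℕ, Y * Real.exp 1 ≤ n → tent (Real.log n - Real.log Y) = 0 := by
    intro n hn
    apply tent_eq_zero
    have h1 : Real.log (Y * Real.exp 1) ≤ Real.log n :=
      Real.log_le_log (by positivity) hn
    rw [Real.log_mul hY.ne' (Real.exp_pos 1).ne', Real.log_exp] at h1
    exact le_trans (by linarith) (le_abs_self _)
  have hz : ∀ n ∈ Finset.Icc 1 M ∪ Finset.Icc 1 ⌊Y * Real.exp 1⌋₊,
      n ∉ Finset.Icc 1 ⌊Y * Real.exp 1⌋₊ →
      ((fW W b n / n * tent (Real.log n - Real.log Y) : ℝ) : ℂ) * nit n t = 0 := by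
    intro n hn hn'
    have hn1 : 1 ≤ n := by
      rw [Finset.mem_union, Finset.mem_Icc, Finset.mem_Icc] at hn
      rcases hn with h | h <;> exact h.1
    have : ⌊Y * Real.exp 1⌋₊ < n := by
      by_contra hc
      exact hn' (Finset.mem_Icc.2 ⟨hn1, by omega⟩)
    rw [hvan n ((Nat.floor_lt (by positivity)).1 this).le]
    simp
  have hz' : ∀ n ∈ Finset.Icc 1 M ∪ Finset.Icc 1 ⌊Y * Real.exp 1⌋₊,
      n ∉ Finset.Icc 1 M →
      ((fW W b n / n * tent (Real.log n - Real.log Y) : ℝ) : ℂ) * nit n t = 0 := by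
    intro n hn hn'
    have hn1 : 1 ≤ n := by
      rw [Finset.mem_union, Finset.mem_Icc, Finset.mem_Icc] at hn
      rcases hn with h | h <;> exact h.1
    have : M + 1 ≤ n := by
      by_contra hc
      exact hn' (Finset.mem_Icc.2 ⟨hn1, by omega⟩)
    have h2 : ((M : ℝ) + 1) ≤ n := by exact_mod_cast this
    rw [hvan n (hM.trans h2)]
    simp
  rw [Finset.sum_subset Finset.subset_union_right hz,
    Finset.sum_subset (s₁ := Finset.Icc 1 M) Finset.subset_union_left hz']

/-- Number of primes of `P` dividing `n`. -/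
noncomputable def om (P : Finset ℕ) (n : ℕ) : ℝ := ∑ p ∈ P, if p ∣ n then (1 : ℝ) else 0

lemma om_nonneg (P : Finset ℕ) (n : ℕ) : 0 ≤ om P n := by
  unfold om
  apply Finset.sum_nonneg
  intro p _
  split_ifs <;> norm_num

lemma sum_dvd (N p : ℕ) :
    ∑ n ∈ Finset.Icc 1 N, (if p ∣ n then (1 : ℝ) else 0) = ((N / p : ℕ) : ℝ) := by
  rw [← Finset.sum_filter, Finset.sum_const, nsmul_eq_mul, mul_one]
  have h1 : (Finset.Icc 1 N).filter (fun n => p ∣ n) = (Finset.Ioc 0 N).filter (fun n => p ∣ n) := by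
    ext n
    simp only [Finset.mem_filter, Finset.mem_Icc, Finset.mem_Ioc]
    constructor <;> rintro ⟨h, h'⟩ <;> exact ⟨by omega, h'⟩
  rw [h1, Nat.Ioc_filter_dvd_card_eq_div]

lemma sum_om_ge {P : Finset ℕ} (hP : ∀ p ∈ P, p.Prime) (N : ℕ) :
    N * ∑ p ∈ P, (1 : ℝ) / p - P.card ≤ ∑ n ∈ Finset.Icc 1 N, om P n := by
  unfold om
  rw [Finset.sum_comm, Finset.mul_sum]
  have : (P.card : ℝ) = ∑ p ∈ P, (1 : ℝ) := by simp
  rw [this, ← Finset.sum_sub_distrib]
  apply Finset.sum_le_sum
  intro p hp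
  rw [sum_dvd]
  have hp0 : 0 < p := (hP p hp).pos
  have h1 := Nat.lt_mul_div_succ N hp0
  have h2 : (N : ℝ) < p * ((N / p : ℕ) + 1) := by exact_mod_cast h1
  have hp' : (0 : ℝ) < p := by exact_mod_cast hp0
  have h3 : (N : ℝ) / p < (N / p : ℕ) + 1 := by
    rw [div_lt_iff₀ hp']
    linarith
  have : (N : ℝ) * (1 / p) = N / p := by ring
  linarith

lemma sum_om_sq_le {P : Finset ℕ} (hP : ∀ p ∈ P, p.Prime) (N : ℕ) :
    ∑ n ∈ Finset.Icc 1 N, om P n ^ 2 ≤
      N * (∑ p ∈ P, (1 : ℝ) / p) ^ 2 + N * ∑ p ∈ P, (1 : ℝ) / p := by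
  have e1 : ∀ n, om P n ^ 2 = ∑ p ∈ P, ∑ q ∈ P, (if p ∣ n ∧ q ∣ n then (1 : ℝ) else 0) := by
    intro n
    unfold om
    rw [sq, Finset.sum_mul_sum]
    apply Finset.sum_congr rfl
    intro p _
    apply Finset.sum_congr rfl
    intro q _
    by_cases h1 : p ∣ n <;> by_cases h2 : q ∣ n <;> simp [h1, h2]
  simp_rw [e1]
  rw [Finset.sum_comm]
  have e2 : ∀ p ∈ P, ∀ q ∈ P,
      ∑ n ∈ Finset.Icc 1 N, (if p ∣ n ∧ q ∣ n then (1 : ℝ) else 0) ≤
        N * ((1 / p) * (1 / q)) + (if p = q then N * (1 / (p : ℝ)) else 0) := by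
    intro p hp q hq
    have hp' : (0 : ℝ) < p := by exact_mod_cast (hP p hp).pos
    have hq' : (0 : ℝ) < q := by exact_mod_cast (hP q hq).pos
    by_cases hpq : p = q
    · subst hpq
      simp only [and_self, if_true]
      rw [sum_dvd]
      have : ((N / p : ℕ) : ℝ) ≤ N / p := Nat.cast_div_le
      have h0 : (0 : ℝ) ≤ N * ((1 / p) * (1 / p)) := by positivity
      have : (N : ℝ) * (1 / p) = N / p := by ring
      linarith
    · rw [if_neg hpq, add_zero]
      have hc : Nat.Coprime p q := (Nat.coprime_primes (hP p hp) (hP q hq)).2 hpq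
      have : ∀ n ∈ Finset.Icc 1 N, (if p ∣ n ∧ q ∣ n then (1 : ℝ) else 0) =
          (if p * q ∣ n then (1 : ℝ) else 0) := by
        intro n _
        have hiff : (p ∣ n ∧ q ∣ n) ↔ p * q ∣ n :=
          ⟨fun h => hc.mul_dvd_of_dvd_of_dvd h.1 h.2,
            fun h => ⟨(dvd_mul_right p q).trans h, (dvd_mul_left q p).trans h⟩⟩
        simp only [hiff]
      rw [Finset.sum_congr rfl this, sum_dvd]
      have h1 : ((N / (p * q) : ℕ) : ℝ) ≤ N / ((p * q : ℕ) : ℝ) := Nat.cast_div_le
      refine h1.trans (le_of_eq ?_)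
      push_cast
      field_simp
  calc ∑ p ∈ P, ∑ n ∈ Finset.Icc 1 N, ∑ q ∈ P, (if p ∣ n ∧ q ∣ n then (1 : ℝ) else 0)
      = ∑ p ∈ P, ∑ q ∈ P, ∑ n ∈ Finset.Icc 1 N, (if p ∣ n ∧ q ∣ n then (1 : ℝ) else 0) := by
        apply Finset.sum_congr rfl
        intro p _
        rw [Finset.sum_comm]
    _ ≤ ∑ p ∈ P, ∑ q ∈ P,
        (N * ((1 / p) * (1 / q)) + (if p = q then N * (1 / (p : ℝ)) else 0)) :=
        Finset.sum_le_sum (fun p hp => Finset.sum_le_sum (fun q hq => e2 p hp q hq))
    _ = _ := by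
        simp_rw [Finset.sum_add_distrib]
        congr 1
        · rw [sq, Finset.sum_mul_sum, Finset.mul_sum]
          apply Finset.sum_congr rfl
          intro p _
          rw [Finset.mul_sum]
        · rw [Finset.mul_sum]
          apply Finset.sum_congr rfl
          intro p hp
          rw [Finset.sum_ite_eq P p, if_pos hp]

/-- Turan-Kubilius. -/
lemma turan_kubilius {P : Finset ℕ} (hP : ∀ p ∈ P, p.Prime) {L : ℝ} (hL : L = ∑ p ∈ P, (1 : ℝ) / p)
    (hL1 : 1 ≤ L) (N : ℕ) :
    ∑ n ∈ Finset.Icc 1 N, (1 - om P n / L) ^ 2 ≤ N / L + 2 * P.card / L := by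
  have hLpos : 0 < L := by linarith
  have h1 := sum_om_ge hP N
  have h2 := sum_om_sq_le hP N
  rw [← hL] at h1 h2
  have e : ∑ n ∈ Finset.Icc 1 N, (1 - om P n / L) ^ 2 =
      N - 2 / L * ∑ n ∈ Finset.Icc 1 N, om P n + 1 / L ^ 2 * ∑ n ∈ Finset.Icc 1 N, om P n ^ 2 := by
    have : ∀ n ∈ Finset.Icc 1 N, (1 - om P n / L) ^ 2 =
        1 - 2 / L * om P n + 1 / L ^ 2 * om P n ^ 2 := by
      intro n _
      field_simp
      ring
    rw [Finset.sum_congr rfl this, Finset.sum_add_distrib, Finset.sum_sub_distrib,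
      ← Finset.mul_sum, ← Finset.mul_sum]
    simp
  rw [e]
  have a1 : 2 / L * (N * L - P.card) ≤ 2 / L * ∑ n ∈ Finset.Icc 1 N, om P n :=
    mul_le_mul_of_nonneg_left h1 (by positivity)
  have a2 : 1 / L ^ 2 * ∑ n ∈ Finset.Icc 1 N, om P n ^ 2 ≤ 1 / L ^ 2 * (N * L ^ 2 + N * L) :=
    mul_le_mul_of_nonneg_left h2 (by positivity)
  have a3 : 2 / L * (N * L - P.card) = 2 * N - 2 * P.card / L := by
    field_simp
  have a4 : 1 / L ^ 2 * (N * L ^ 2 + N * L) = N + N / L := by
    field_simp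
  linarith

/-- The coefficient of the error term. -/
noncomputable def eco (W b H : ℕ) (P : Finset ℕ) (L X : ℝ) (n : ℕ) : ℝ :=
  fW W b n / n * (tent (Real.log n - Real.log X) - (1 / L) * ∑ p ∈ P,
    if p ∣ n then tent (Real.log n - Real.log p + (cell H p : ℝ) / H - Real.log X) else 0)

lemma cell_le {H : ℕ} (p : ℕ) (hH : 0 < H) :
    (cell H p : ℝ) / H ≤ Real.log p ∧ Real.log p - 1 / H < (cell H p : ℝ) / H := by
  have hH' : (0 : ℝ) < H := by exact_mod_cast hH
  have hlog : 0 ≤ Real.log p := Real.log_natCast_nonneg p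
  have h1 : (cell H p : ℝ) ≤ H * Real.log p := Nat.floor_le (by positivity)
  have h2 : (H : ℝ) * Real.log p < cell H p + 1 := Nat.lt_floor_add_one _
  constructor
  · rw [div_le_iff₀ hH']
    linarith
  · rw [lt_div_iff₀ hH', sub_mul, one_div, inv_mul_cancel₀ hH'.ne']
    linarith

lemma tkd_identity {W b H : ℕ} {P : Finset ℕ} {L X : ℝ} (hH : 0 < H)
    (hP : ∀ p ∈ P, p.Prime ∧ p ≡ 1 [MOD W]) (hX : 0 < X) (t : ℝ) :
    FX W b X t + (1 / L : ℂ) * ∑ v ∈ P.image (cell H),
        QP (P.filter (fun p => cell H p = v)) t * FX W b (X * Real.exp (-(v : ℝ) / H)) t =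
      ∑ n ∈ Finset.Icc 1 ⌊X * Real.exp 2⌋₊, (eco W b H P L X n : ℂ) * nit n t := by
  set N₁ := ⌊X * Real.exp 2⌋₊ with hN₁
  have hN₁' : X * Real.exp 2 < N₁ + 1 := Nat.lt_floor_add_one _
  have hHr : (1 : ℝ) ≤ H := by exact_mod_cast hH
  have hHpos : (0 : ℝ) < H := by linarith
  have hinvH : 1 / (H : ℝ) ≤ 1 := by
    rw [div_le_one hHpos]; exact hHr
  have he12 : Real.exp 1 ≤ Real.exp 2 := Real.exp_le_exp.2 (by norm_num)
  -- the function G
  set G : ℕ → ℕ → ℂ := fun p n => ((fW W b n / n *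
    tent (Real.log n - Real.log p + (cell H p : ℝ) / H - Real.log X) : ℝ) : ℂ) * nit n t with hG
  have hGvan : ∀ p ∈ P, ∀ n : ℕ, N₁ < n → G p n = 0 := by
    intro p hp n hn
    have h1 : (N₁ : ℝ) + 1 ≤ n := by exact_mod_cast hn
    have h2 : Real.log (X * Real.exp 2) ≤ Real.log n :=
      Real.log_le_log (by positivity) (by linarith)
    rw [Real.log_mul hX.ne' (Real.exp_pos 2).ne', Real.log_exp] at h2
    have h3 := (cell_le p hH).2
    have : tent (Real.log n - Real.log p + (cell H p : ℝ) / H - Real.log X) = 0 := by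
      apply tent_eq_zero
      exact le_trans (by linarith) (le_abs_self _)
    simp only [hG]
    rw [this]
    simp
  have hFX : FX W b X t = ∑ n ∈ Finset.Icc 1 N₁,
      ((fW W b n / n * tent (Real.log n - Real.log X) : ℝ) : ℂ) * nit n t := by
    apply FX_eq hX
    have : X * Real.exp 1 ≤ X * Real.exp 2 := mul_le_mul_of_nonneg_left he12 hX.le
    linarith
  have hR : ∀ v : ℕ, FX W b (X * Real.exp (-(v : ℝ) / H)) t = ∑ m ∈ Finset.Icc 1 N₁,
      ((fW W b m / m * tent (Real.log m - (Real.log X + (-(v : ℝ) / H))) : ℝ) : ℂ) * nit m t := by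
    intro v
    rw [FX_eq (M := N₁) (by positivity), Real.log_mul hX.ne' (Real.exp_pos _).ne', Real.log_exp]
    have h1 : Real.exp (-(v : ℝ) / H) ≤ 1 := by
      rw [Real.exp_le_one_iff]
      apply div_nonpos_of_nonpos_of_nonneg _ hHpos.le
      have : (0 : ℝ) ≤ v := Nat.cast_nonneg v
      linarith
    have : X * Real.exp (-(v : ℝ) / H) * Real.exp 1 ≤ X * Real.exp 2 := by
      calc X * Real.exp (-(v : ℝ) / H) * Real.exp 1 ≤ X * 1 * Real.exp 2 := by
            apply mul_le_mul (mul_le_mul_of_nonneg_left h1 hX.le) he12 (Real.exp_pos 1).le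
            positivity
        _ = _ := by ring
    linarith
  have hterm : ∀ p ∈ P, (1 / (p : ℂ)) * nit p t *
      FX W b (X * Real.exp (-(cell H p : ℝ) / H)) t =
      - ∑ n ∈ Finset.Icc 1 N₁, (if p ∣ n then G p n else 0) := by
    intro p hp
    obtain ⟨hpp, hp1⟩ := hP p hp
    have hp0 : p ≠ 0 := hpp.ne_zero
    rw [hR, Finset.mul_sum]
    have h1 : ∀ m ∈ Finset.Icc 1 N₁, (1 / (p : ℂ)) * nit p t *
        (((fW W b m / m * tent (Real.log m - (Real.log X + (-(cell H p : ℝ) / H))) : ℝ) : ℂ) *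
          nit m t) = - G p (p * m) := by
      intro m hm
      have hm0 : m ≠ 0 := by have := (Finset.mem_Icc.1 hm).1; omega
      simp only [hG]
      rw [nit_mul hp0 hm0, fW_prime_mul hpp hp1 hm0, Nat.cast_mul,
        Real.log_mul (by exact_mod_cast hp0) (by exact_mod_cast hm0)]
      have e1 : Real.log p + Real.log m - Real.log p + (cell H p : ℝ) / H - Real.log X =
          Real.log m - (Real.log X + (-(cell H p : ℝ) / H)) := by ring
      rw [e1]
      have hpc : (p : ℂ) ≠ 0 := by exact_mod_cast hp0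
      have hmc : (m : ℂ) ≠ 0 := by exact_mod_cast hm0
      push_cast
      field_simp
    rw [Finset.sum_congr rfl h1, Finset.sum_neg_distrib]
    congr 1
    rw [← Finset.sum_filter]
    have hinj : Set.InjOn (fun m => p * m) ((Finset.Icc 1 N₁ : Finset ℕ) : Set ℕ) := by
      intro x _ y _ hxy
      exact Nat.eq_of_mul_eq_mul_left hpp.pos hxy
    rw [← Finset.sum_image (f := fun n => G p n) (g := fun m => p * m) hinj]
    symm
    apply Finset.sum_subset
    · intro n hn
      rw [Finset.mem_filter, Finset.mem_Icc] at hn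
      obtain ⟨⟨hn1, hn2⟩, m, rfl⟩ := hn
      rw [Finset.mem_image]
      refine ⟨m, Finset.mem_Icc.2 ⟨?_, ?_⟩, rfl⟩
      · rcases Nat.eq_zero_or_pos m with h | h
        · rw [h] at hn1; simp at hn1
        · exact h
      · exact le_trans (Nat.le_mul_of_pos_left m hpp.pos) hn2
    · intro n hn hn'
      rw [Finset.mem_image] at hn
      obtain ⟨m, hm, rfl⟩ := hn
      apply hGvan p hp
      by_contra hc
      apply hn'
      rw [Finset.mem_filter, Finset.mem_Icc]
      have hm1 := (Finset.mem_Icc.1 hm).1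
      refine ⟨⟨?_, by omega⟩, dvd_mul_right _ _⟩
      have := Nat.mul_le_mul hpp.pos hm1
      omega
  have hsum : ∑ v ∈ P.image (cell H),
        QP (P.filter (fun p => cell H p = v)) t * FX W b (X * Real.exp (-(v : ℝ) / H)) t =
      ∑ p ∈ P, (1 / (p : ℂ)) * nit p t * FX W b (X * Real.exp (-(cell H p : ℝ) / H)) t := by
    rw [← Finset.sum_fiberwise_of_maps_to (g := cell H) (t := P.image (cell H))
      (fun p hp => Finset.mem_image_of_mem _ hp)]
    apply Finset.sum_congr rfl
    intro v _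
    unfold QP
    rw [Finset.sum_mul]
    apply Finset.sum_congr rfl
    intro p hp
    rw [Finset.mem_filter] at hp
    rw [hp.2]
  rw [hsum, Finset.sum_congr rfl hterm, hFX, Finset.sum_neg_distrib, Finset.sum_comm,
    mul_neg, Finset.mul_sum, ← sub_eq_add_neg, ← Finset.sum_sub_distrib]
  apply Finset.sum_congr rfl
  intro n _
  unfold eco
  have e2 : ∑ p ∈ P, (if p ∣ n then G p n else 0) =
      ((fW W b n / n : ℝ) : ℂ) * ((∑ p ∈ P,
        (if p ∣ n then tent (Real.log n - Real.log p + (cell H p : ℝ) / H - Real.log X) else 0) :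
          ℝ) : ℂ) * nit n t := by
    rw [Complex.ofReal_sum, Finset.mul_sum, Finset.sum_mul]
    apply Finset.sum_congr rfl
    intro p _
    split_ifs
    · simp only [hG]
      push_cast
      ring
    · simp
  rw [e2]
  push_cast
  ring

lemma eco_bound {W b H : ℕ} {P : Finset ℕ} {L X : ℝ} (hH : 0 < H)
    (hP : ∀ p ∈ P, p.Prime) (hX : 0 < X) (hL : 0 < L) {n : ℕ} (hn : 1 ≤ n) :
    eco W b H P L X n ^ 2 ≤ 2 / (n : ℝ) ^ 2 * ((1 - om P n / L) ^ 2 + om P n ^ 2 / (L * H) ^ 2) ∧
    ((n : ℝ) * Real.exp 1 < X → eco W b H P L X n = 0) := by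
  have hnr : (0 : ℝ) < n := by exact_mod_cast hn
  have hHpos : (0 : ℝ) < H := by exact_mod_cast hH
  constructor
  · set l := Real.log n - Real.log X with hl
    have e : tent l - (1 / L) * ∑ p ∈ P,
        (if p ∣ n then tent (Real.log n - Real.log p + (cell H p : ℝ) / H - Real.log X) else 0) =
        tent l * (1 - om P n / L) + (1 / L) * ∑ p ∈ P,
          (if p ∣ n then tent l -
            tent (Real.log n - Real.log p + (cell H p : ℝ) / H - Real.log X) else 0) := by
      have : ∑ p ∈ P, (if p ∣ n then tent l -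
            tent (Real.log n - Real.log p + (cell H p : ℝ) / H - Real.log X) else 0) =
          om P n * tent l - ∑ p ∈ P,
        (if p ∣ n then tent (Real.log n - Real.log p + (cell H p : ℝ) / H - Real.log X) else 0) := by
        unfold om
        rw [Finset.sum_mul, ← Finset.sum_sub_distrib]
        apply Finset.sum_congr rfl
        intro p _
        split_ifs <;> ring
      rw [this]
      generalize ∑ p ∈ P, (if p ∣ n then
        tent (Real.log n - Real.log p + (cell H p : ℝ) / H - Real.log X) else 0) = S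
      field_simp
      ring
    have h1 : |∑ p ∈ P, (if p ∣ n then tent l -
            tent (Real.log n - Real.log p + (cell H p : ℝ) / H - Real.log X) else 0)| ≤
        om P n / H := by
      unfold om
      rw [Finset.sum_div]
      refine (Finset.abs_sum_le_sum_abs _ _).trans (Finset.sum_le_sum fun p hp => ?_)
      split_ifs with hd
      · refine (tent_lip _ _).trans ?_
        have hc := cell_le p hH
        rw [hl, abs_le]
        constructor <;> linarith [hc.1, hc.2]
      · simp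
    have h2 : |tent l * (1 - om P n / L) + (1 / L) * ∑ p ∈ P, (if p ∣ n then tent l -
            tent (Real.log n - Real.log p + (cell H p : ℝ) / H - Real.log X) else 0)| ≤
        |1 - om P n / L| + om P n / (L * H) := by
      refine (abs_add_le _ _).trans (add_le_add ?_ ?_)
      · rw [abs_mul, abs_of_nonneg (tent_nonneg l)]
        exact mul_le_of_le_one_left (abs_nonneg _) (tent_le_one l)
      · rw [abs_mul, abs_of_pos (by positivity : (0 : ℝ) < 1 / L)]
        calc 1 / L * |∑ p ∈ P, (if p ∣ n then tent l -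
            tent (Real.log n - Real.log p + (cell H p : ℝ) / H - Real.log X) else 0)| ≤
            1 / L * (om P n / H) := mul_le_mul_of_nonneg_left h1 (by positivity)
          _ = _ := by field_simp
    unfold eco
    rw [← hl, e, mul_pow, div_pow]
    have h3 : fW W b n ^ 2 ≤ 1 := by
      rw [sq_le_one_iff_abs_le_one]
      exact abs_fW_le W b n
    have h4 := pow_le_pow_left₀ (abs_nonneg _) h2 2
    rw [sq_abs] at h4
    have h5 : (|1 - om P n / L| + om P n / (L * H)) ^ 2 ≤
        2 * ((1 - om P n / L) ^ 2 + om P n ^ 2 / (L * H) ^ 2) := by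
      have := sq_nonneg (|1 - om P n / L| - om P n / (L * H))
      have e3 : |1 - om P n / L| ^ 2 = (1 - om P n / L) ^ 2 := sq_abs _
      have e4 : (om P n / (L * H)) ^ 2 = om P n ^ 2 / (L * H) ^ 2 := div_pow _ _ _
      nlinarith
    calc fW W b n ^ 2 / (n : ℝ) ^ 2 * (tent l * (1 - om P n / L) + (1 / L) * ∑ p ∈ P,
          (if p ∣ n then tent l -
            tent (Real.log n - Real.log p + (cell H p : ℝ) / H - Real.log X) else 0)) ^ 2
        ≤ 1 / (n : ℝ) ^ 2 * (2 * ((1 - om P n / L) ^ 2 + om P n ^ 2 / (L * H) ^ 2)) := by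
          apply mul_le_mul _ (h4.trans h5) (sq_nonneg _) (by positivity)
          apply div_le_div_of_nonneg_right h3 (by positivity)
      _ = _ := by ring
  · intro hlt
    have h1 : Real.log n + 1 < Real.log X := by
      have := Real.log_lt_log (by positivity) hlt
      rwa [Real.log_mul hnr.ne' (Real.exp_pos 1).ne', Real.log_exp] at this
    unfold eco
    have h2 : tent (Real.log n - Real.log X) = 0 := by
      apply tent_eq_zero
      rw [abs_of_neg (by linarith)]
      linarith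
    have h3 : ∑ p ∈ P, (if p ∣ n then
        tent (Real.log n - Real.log p + (cell H p : ℝ) / H - Real.log X) else 0) = 0 := by
      apply Finset.sum_eq_zero
      intro p hp
      split_ifs
      · apply tent_eq_zero
        have hc := cell_le p hH
        rw [abs_of_neg (by linarith [hc.1])]
        linarith [hc.1]
      · rfl
    rw [h2, h3]
    simp

/-- **[TKD]**. -/
theorem tkd (hGM : StatementGM) : StatementTKD := by
  obtain ⟨C, hC, hGM⟩ := hGM
  refine ⟨400 * C, by positivity, ?_⟩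
  intro W b H P L X T hW hH hP hL hL1 hT hTX
  have hX : 0 < X := by linarith
  have hLpos : 0 < L := by linarith
  have hHr : (1 : ℝ) ≤ H := by exact_mod_cast hH
  have hHpos : (0 : ℝ) < H := by linarith
  refine ⟨fun t => ∑ n ∈ Finset.Icc 1 ⌊X * Real.exp 2⌋₊, (eco W b H P L X n : ℂ) * nit n t,
    ?_, ?_, ?_⟩
  · apply continuous_finsetSum
    intro n _
    exact continuous_const.mul (continuous_nit n)
  · intro t
    simp only
    rw [← tkd_identity (L := L) hH (fun p hp => ⟨(hP p hp).1, (hP p hp).2.1⟩) hX t]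
    ring
  · simp only
    refine (hGM T (Finset.Icc 1 ⌊X * Real.exp 2⌋₊) (fun n => (eco W b H P L X n : ℂ)) hT
      (fun n hn => (Finset.mem_Icc.1 hn).1)).trans ?_
    rw [mul_comm 400 C, mul_assoc]
    apply mul_le_mul_of_nonneg_left _ hC.le
    have hPp : ∀ p ∈ P, p.Prime := fun p hp => (hP p hp).1
    have he1 : Real.exp 1 < 2.72 := by
      have := Real.exp_one_lt_d9
      linarith
    have he2 : Real.exp 2 ≤ 7.5 := by
      have : Real.exp 2 = Real.exp 1 * Real.exp 1 := by rw [← Real.exp_add]; norm_num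
      rw [this]
      nlinarith [Real.exp_pos 1]
    set N₁ := ⌊X * Real.exp 2⌋₊ with hN₁
    have hN₁X : (N₁ : ℝ) ≤ 7.5 * X := by
      calc (N₁ : ℝ) ≤ X * Real.exp 2 := Nat.floor_le (by positivity)
        _ ≤ X * 7.5 := mul_le_mul_of_nonneg_left he2 hX.le
        _ = _ := by ring
    have hterm : ∀ n ∈ Finset.Icc 1 N₁, ‖(eco W b H P L X n : ℂ)‖ ^ 2 * (T + n) ≤
        24 / X * ((1 - om P n / L) ^ 2 + om P n ^ 2 / (L * H) ^ 2) := by
      intro n hn
      have hn1 := (Finset.mem_Icc.1 hn).1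
      have hnr : (0 : ℝ) < n := by exact_mod_cast hn1
      rw [Complex.norm_real, Real.norm_eq_abs, sq_abs]
      obtain ⟨hb1, hb2⟩ := eco_bound (W := W) (b := b) (L := L) hH hPp hX hLpos hn1
      have hnonneg : 0 ≤ (1 - om P n / L) ^ 2 + om P n ^ 2 / (L * H) ^ 2 := by positivity
      by_cases hlt : (n : ℝ) * Real.exp 1 < X
      · rw [hb2 hlt]
        simp only [ne_eq, OfNat.ofNat_ne_zero, not_false_eq_true, zero_pow, zero_mul]
        positivity
      · push Not at hlt
        have hX3 : X ≤ 2.72 * n := by nlinarith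
        have hTn : T + n ≤ 4 * n := by linarith
        calc eco W b H P L X n ^ 2 * (T + n)
            ≤ (2 / (n : ℝ) ^ 2 * ((1 - om P n / L) ^ 2 + om P n ^ 2 / (L * H) ^ 2)) * (4 * n) := by
              apply mul_le_mul hb1 hTn (by linarith) (by positivity)
          _ = 8 / n * ((1 - om P n / L) ^ 2 + om P n ^ 2 / (L * H) ^ 2) := by
              field_simp
              ring
          _ ≤ 24 / X * ((1 - om P n / L) ^ 2 + om P n ^ 2 / (L * H) ^ 2) := by
              apply mul_le_mul_of_nonneg_right _ hnonneg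
              rw [div_le_div_iff₀ hnr hX]
              linarith
    refine (Finset.sum_le_sum hterm).trans ?_
    rw [← Finset.mul_sum, Finset.sum_add_distrib, ← Finset.sum_div]
    have htk := turan_kubilius hPp hL hL1 N₁
    have hsq := sum_om_sq_le hPp N₁
    rw [← hL] at hsq
    have h1 : (∑ n ∈ Finset.Icc 1 N₁, om P n ^ 2) / (L * H) ^ 2 ≤ 15 * X / H ^ 2 := by
      rw [div_le_div_iff₀ (by positivity) (by positivity)]
      have h2 : (N₁ : ℝ) * L ^ 2 + N₁ * L ≤ 15 * X * L ^ 2 := by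
        have : (N₁ : ℝ) * L ≤ N₁ * L ^ 2 := by
          apply mul_le_mul_of_nonneg_left _ (Nat.cast_nonneg _)
          nlinarith
        nlinarith [mul_le_mul_of_nonneg_right hN₁X (sq_nonneg L)]
      calc (∑ n ∈ Finset.Icc 1 N₁, om P n ^ 2) * (H : ℝ) ^ 2 ≤ (15 * X * L ^ 2) * H ^ 2 := by
            apply mul_le_mul_of_nonneg_right (hsq.trans h2) (by positivity)
        _ = _ := by ring
    have h3 : (N₁ : ℝ) / L + 2 * P.card / L ≤ 7.5 * X / L + 2 * P.card := by
      have a1 : (N₁ : ℝ) / L ≤ 7.5 * X / L := div_le_div_of_nonneg_right hN₁X hLpos.le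
      have a2 : 2 * (P.card : ℝ) / L ≤ 2 * P.card := by
        rw [div_le_iff₀ hLpos]
        have : (0 : ℝ) ≤ P.card := Nat.cast_nonneg _
        nlinarith
      linarith
    calc 24 / X * (∑ n ∈ Finset.Icc 1 N₁, (1 - om P n / L) ^ 2 +
          (∑ n ∈ Finset.Icc 1 N₁, om P n ^ 2) / (L * H) ^ 2)
        ≤ 24 / X * ((7.5 * X / L + 2 * P.card) + 15 * X / H ^ 2) := by
          apply mul_le_mul_of_nonneg_left _ (by positivity)
          linarith
      _ = 180 / L + 48 * (P.card / X) + 360 / H ^ 2 := by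
          field_simp
          ring
      _ ≤ 400 * (1 / L + 1 / (H : ℝ) ^ 2 + P.card / X) := by
          have a1 : (180 : ℝ) / L ≤ 400 * (1 / L) := by
            rw [mul_one_div]
            apply div_le_div_of_nonneg_right (by norm_num) hLpos.le
          have a2 : (360 : ℝ) / H ^ 2 ≤ 400 * (1 / (H : ℝ) ^ 2) := by
            rw [mul_one_div]
            apply div_le_div_of_nonneg_right (by norm_num) (by positivity)
          have a3 : (0 : ℝ) ≤ (P.card : ℝ) / X := by positivity
          linarith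

end Pool.Agent.H59.MR
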