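import Pool.Agent.H59.MR.Dens

set_option autoImplicit false

open Finset Filter Topology

namespace Pool.Agent.H59.MR

open Pool.Agent.H24.MR

lemma lam_or (n : ℕ) : lam n = 1 ∨ lam n = -1 := neg_one_pow_eq_or ℝ _

lemma lam_ne_zero (n : ℕ) : lam n ≠ 0 := by
  rcases lam_or n with h | h <;> rw [h] <;> norm_num

/-- The disagreement of the shifts by `a` and `b` on the class `c` modulo `Q`. -/
noncomputable def Dl (μ : Set ℕ → ℝ) (Q c a b : ℕ) : ℝ :=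
  μ {z | z ≡ c [MOD Q] ∧ lam (z + a) ≠ lam (z + b)}

section
variable {μ : Set ℕ → ℝ} (h : FinAddInv μ)
include h

omit h in
lemma Dl_comm (Q c a b : ℕ) : Dl μ Q c a b = Dl μ Q c b a := by
  unfold Dl
  congr 1
  ext z
  simp only [Set.mem_ofPred_eq]
  constructor <;> rintro ⟨h1, h2⟩ <;> exact ⟨h1, fun e => h2 e.symm⟩

lemma Dl_tri (Q c a b e : ℕ) : Dl μ Q c a b ≤ Dl μ Q c a e + Dl μ Q c e b := by
  unfold Dl
  refine le_trans (fai_mono h ?_) (fai_union_le h _ _)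
  rintro z ⟨h1, h2⟩
  by_cases he : lam (z + a) = lam (z + e)
  · right
    exact ⟨h1, fun e' => h2 (he.trans e')⟩
  · left
    exact ⟨h1, he⟩

lemma Dl_shift (Q c t a b : ℕ) : Dl μ Q (c + t) a b = Dl μ Q c (a + t) (b + t) := by
  unfold Dl
  rw [← fai_shift' h t]
  congr 1
  ext z
  simp only [Set.mem_ofPred_eq]
  have e1 : z + t + a = z + (a + t) := by ring
  have e2 : z + t + b = z + (b + t) := by ring
  rw [e1, e2]
  constructor
  · rintro ⟨h1, h2⟩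
    exact ⟨Nat.ModEq.add_right_cancel' t h1, h2⟩
  · rintro ⟨h1, h2⟩
    exact ⟨Nat.ModEq.add_right t h1, h2⟩

omit h in
lemma Dl_congr {Q c c' : ℕ} (hc : c ≡ c' [MOD Q]) (a b : ℕ) : Dl μ Q c a b = Dl μ Q c' a b := by
  unfold Dl
  congr 1
  ext z
  simp only [Set.mem_ofPred_eq]
  constructor
  · rintro ⟨h1, h2⟩
    exact ⟨h1.trans hc, h2⟩
  · rintro ⟨h1, h2⟩
    exact ⟨h1.trans hc.symm, h2⟩

lemma Dl_mul {Q s : ℕ} (hs : Q ∣ s) (c k : ℕ) : Dl μ Q c 0 (k * s) ≤ k * Dl μ Q c 0 s := by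
  induction k with
  | zero =>
    unfold Dl
    simp [fai_empty h]
  | succ k ih =>
    have h1 := Dl_tri h Q c 0 ((k + 1) * s) (k * s)
    have h2 := Dl_shift h Q c (k * s) 0 s
    rw [show 0 + k * s = k * s by ring, show s + k * s = (k + 1) * s by ring] at h2
    have h3 : Dl μ Q (c + k * s) 0 s = Dl μ Q c 0 s := by
      apply Dl_congr
      have : k * s ≡ 0 [MOD Q] := (Nat.modEq_zero_iff_dvd.2 (hs.mul_left k))
      simpa using Nat.ModEq.add_left c this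
    rw [← h2, h3] at h1
    push_cast
    linarith

/-- The basic step: the relation for two primes. -/
lemma Dl_pair {Q u : ℕ} {τ β : ℝ} {a b : ℕ}
    (ha : μ {y | y ≡ u [MOD Q] ∧ lam y * lam (y + a) ≠ τ} ≤ β)
    (hb : μ {y | y ≡ u [MOD Q] ∧ lam y * lam (y + b) ≠ τ} ≤ β) :
    Dl μ Q u a b ≤ 2 * β := by
  unfold Dl
  have hun := fai_union_le h {y | y ≡ u [MOD Q] ∧ lam y * lam (y + a) ≠ τ}
    {y | y ≡ u [MOD Q] ∧ lam y * lam (y + b) ≠ τ}
  refine le_trans (fai_mono h ?_) (le_trans hun (by linarith))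
  rintro z ⟨h1, h2⟩
  by_cases he : lam z * lam (z + a) = τ
  · right
    refine ⟨h1, fun e => h2 ?_⟩
    rw [← he] at e
    exact (mul_left_cancel₀ (lam_ne_zero z) e).symm
  · left
    exact ⟨h1, he⟩

lemma Dl_four {Q u K : ℕ} (hQ : 0 < Q) {τ β : ℝ} {p q p' q' s : ℕ}
    (hp1 : p ≡ 1 [MOD Q]) (hq1 : q ≡ 1 [MOD Q]) (hp1' : p' ≡ 1 [MOD Q])
    (hs : p + q' = q + p' + s)
    (hp : μ {y | y ≡ u [MOD Q] ∧ lam y * lam (y + p * K) ≠ τ} ≤ β)
    (hq : μ {y | y ≡ u [MOD Q] ∧ lam y * lam (y + q * K) ≠ τ} ≤ β)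
    (hp' : μ {y | y ≡ u [MOD Q] ∧ lam y * lam (y + p' * K) ≠ τ} ≤ β)
    (hq' : μ {y | y ≡ u [MOD Q] ∧ lam y * lam (y + q' * K) ≠ τ} ≤ β) :
    Dl μ Q (u + K) 0 (K * s) ≤ 4 * β := by
  obtain ⟨Q', rfl⟩ : ∃ Q', Q = Q' + 1 := ⟨Q - 1, by omega⟩
  set c := u + Q' * K with hc
  have hcK : c + K ≡ u [MOD (Q' + 1)] := by
    have : c + K = u + (Q' + 1) * K := by rw [hc]; ring
    rw [this]
    simp
  have hcp : ∀ p : ℕ, p ≡ 1 [MOD (Q' + 1)] → c + p * K ≡ u [MOD (Q' + 1)] := by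
    intro p hp
    refine Nat.ModEq.trans ?_ hcK
    apply Nat.ModEq.add_left
    simpa using hp.mul_right K
  have h1 := Dl_pair h hq hp
  have h2 := Dl_pair h hp' hq'
  have h3 := Dl_tri h (Q' + 1) c (q * K + p' * K) (p * K + q' * K) (p * K + p' * K)
  have h4 := Dl_shift h (Q' + 1) c (p' * K) (q * K) (p * K)
  have h5 := Dl_shift h (Q' + 1) c (p * K) (p' * K) (q' * K)
  rw [Dl_congr (hcp _ hp1')] at h4
  rw [Dl_congr (hcp _ hp1)] at h5
  rw [show p' * K + p * K = p * K + p' * K by ring,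
    show q' * K + p * K = p * K + q' * K by ring] at h5
  have h6 := Dl_shift h (Q' + 1) c (q * K + p' * K) 0 (K * s)
  have e1 : K * s + (q * K + p' * K) = p * K + q' * K := by
    calc K * s + (q * K + p' * K) = K * (q + p' + s) := by ring
      _ = K * (p + q') := by rw [hs]
      _ = _ := by ring
  rw [e1, zero_add] at h6
  have h7 : Dl μ (Q' + 1) (c + (q * K + p' * K)) 0 (K * s) = Dl μ (Q' + 1) (u + K) 0 (K * s) := by
    apply Dl_congr
    have a1 : c + q * K ≡ u [MOD (Q' + 1)] := hcp _ hq1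
    have a2 : p' * K ≡ K [MOD (Q' + 1)] := by simpa using hp1'.mul_right K
    rw [← add_assoc]
    exact a1.add a2
  rw [← h7, h6]
  linarith

end

/-- Covering by translates. -/
lemma exists_diff {D : Finset ℤ} {Q T J y : ℕ} {c₁ : ℝ} (hQ : 0 < Q) (hQT : Q ≤ T)
    (hD : ∀ e ∈ D, (Q : ℤ) ∣ e ∧ -(T : ℤ) ≤ e ∧ e ≤ T)
    (hc : c₁ * T / Q ≤ (D.card : ℝ)) (hJ : 4 < (J + 1) * c₁) (hy : 0 < y) (hyT : J * Q * y ≤ T) :
    ∃ k : ℕ, 1 ≤ k ∧ k ≤ J ∧ ∃ e ∈ D, ∃ e' ∈ D, e - e' = k * Q * y := by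
  classical
  by_contra hcon
  push Not at hcon
  have hQ' : (0 : ℤ) < Q := by exact_mod_cast hQ
  have hmaps : ∀ x ∈ (Finset.range (J + 1)) ×ˢ D,
      (fun x : ℕ × ℤ => x.2 / (Q : ℤ) + x.1 * y) x ∈
        Finset.Icc (-((T : ℤ) / Q)) ((2 * T : ℤ) / Q) := by
    rintro ⟨j, e⟩ hx
    rw [Finset.mem_product] at hx
    obtain ⟨hj, he⟩ := hx
    simp only at hj he ⊢
    obtain ⟨⟨v, rfl⟩, h1, h2⟩ := hD e he
    have hj' : j ≤ J := by rw [Finset.mem_range] at hj; omega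
    rw [Int.mul_ediv_cancel_left _ hQ'.ne', Finset.mem_Icc]
    have hyT' : (J : ℤ) * Q * y ≤ T := by exact_mod_cast hyT
    have hjJ : (j : ℤ) ≤ J := by exact_mod_cast hj'
    have hjy : (j : ℤ) * Q * y ≤ T := by
      refine le_trans ?_ hyT'
      have : (0 : ℤ) ≤ (Q : ℤ) * y := by positivity
      nlinarith
    constructor
    · have : (0 : ℤ) ≤ j * y := by positivity
      have h3 : -v ≤ (T : ℤ) / Q := by
        rw [Int.le_ediv_iff_mul_le hQ']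
        nlinarith
      linarith
    · rw [Int.le_ediv_iff_mul_le hQ']
      nlinarith
  have hinj : Set.InjOn (fun x : ℕ × ℤ => x.2 / (Q : ℤ) + x.1 * y)
      (((Finset.range (J + 1)) ×ˢ D : Finset (ℕ × ℤ)) : Set (ℕ × ℤ)) := by
    have key : ∀ j e j' e', j ∈ Finset.range (J + 1) → e ∈ D → j' ∈ Finset.range (J + 1) →
        e' ∈ D → j < j' → e / (Q : ℤ) + j * y = e' / (Q : ℤ) + j' * y → False := by
      intro j e j' e' hj he hj' he' hlt heq
      rw [Finset.mem_range] at hj hj'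
      refine hcon (j' - j) (by omega) (by omega) e he e' he' ?_
      obtain ⟨⟨v, rfl⟩, -, -⟩ := hD e he
      obtain ⟨⟨v', rfl⟩, -, -⟩ := hD e' he'
      rw [Int.mul_ediv_cancel_left _ hQ'.ne', Int.mul_ediv_cancel_left _ hQ'.ne'] at heq
      rw [Nat.cast_sub hlt.le]
      have : v - v' = ((j' : ℤ) - j) * y := by linarith
      calc (Q : ℤ) * v - Q * v' = Q * (v - v') := by ring
        _ = _ := by rw [this]; ring
    rintro ⟨j, e⟩ hx ⟨j', e'⟩ hx' heq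
    rw [Finset.mem_coe, Finset.mem_product] at hx hx'
    simp only at heq hx hx'
    rcases lt_trichotomy j j' with hlt | heq' | hgt
    · exact (key j e j' e' hx.1 hx.2 hx'.1 hx'.2 hlt heq).elim
    · subst heq'
      obtain ⟨⟨v, rfl⟩, -, -⟩ := hD e hx.2
      obtain ⟨⟨v', rfl⟩, -, -⟩ := hD e' hx'.2
      rw [Int.mul_ediv_cancel_left _ hQ'.ne', Int.mul_ediv_cancel_left _ hQ'.ne'] at heq
      have : v = v' := by linarith
      rw [this]
    · exact (key j' e' j e hx'.1 hx'.2 hx.1 hx.2 hgt heq.symm).elim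
  have hcard := Finset.card_le_card_of_injOn _ hmaps hinj
  rw [Finset.card_product, Finset.card_range, Int.card_Icc] at hcard
  have hQr : (0 : ℝ) < Q := by exact_mod_cast hQ
  have e1 : (((2 * T : ℤ) / Q + 1 - (-((T : ℤ) / Q))).toNat : ℝ) ≤ 4 * (T / Q : ℝ) := by
    have nn : (0 : ℤ) ≤ (2 * T : ℤ) / Q + 1 - (-((T : ℤ) / Q)) := by
      have n1 : (0 : ℤ) ≤ (2 * T : ℤ) / Q := by positivity
      have n2 : (0 : ℤ) ≤ (T : ℤ) / Q := by positivity
      linarith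
    have e2 : (((2 * T : ℤ) / Q + 1 - (-((T : ℤ) / Q))).toNat : ℝ) =
        (((2 * T : ℤ) / Q + 1 - (-((T : ℤ) / Q)) : ℤ) : ℝ) := by
      have := Int.toNat_of_nonneg nn
      calc (((2 * T : ℤ) / Q + 1 - (-((T : ℤ) / Q))).toNat : ℝ)
          = ((((2 * T : ℤ) / Q + 1 - (-((T : ℤ) / Q))).toNat : ℤ) : ℝ) := by push_cast; rfl
        _ = _ := by rw [this]
    rw [e2]
    push_cast
    have f1 : (((2 * T : ℤ) / Q : ℤ) : ℝ) ≤ 2 * (T / Q : ℝ) := by
      have : ((((2 * T : ℤ) / Q : ℤ) * Q : ℤ) : ℝ) ≤ ((2 * T : ℤ) : ℝ) :=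
        Int.cast_le.2 (Int.ediv_mul_le _ hQ'.ne')
      push_cast at this
      rw [← mul_div_assoc, le_div_iff₀ hQr]
      exact this
    have f2 : (((T : ℤ) / Q : ℤ) : ℝ) ≤ (T / Q : ℝ) := by
      have : ((((T : ℤ) / Q : ℤ) * Q : ℤ) : ℝ) ≤ ((T : ℤ) : ℝ) :=
        Int.cast_le.2 (Int.ediv_mul_le _ hQ'.ne')
      push_cast at this
      rw [le_div_iff₀ hQr]
      exact this
    have f3 : (1 : ℝ) ≤ (T / Q : ℝ) := by
      rw [le_div_iff₀ hQr, one_mul]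
      exact_mod_cast hQT
    linarith
  have e3 : ((J + 1) * D.card : ℝ) ≤ 4 * (T / Q : ℝ) := by
    refine le_trans ?_ e1
    exact_mod_cast hcard
  have hTQ : (0 : ℝ) < (T / Q : ℝ) := by
    apply div_pos _ hQr
    exact_mod_cast lt_of_lt_of_le hQ hQT
  have e4 : (J + 1 : ℝ) * (c₁ * (T / Q)) ≤ 4 * (T / Q : ℝ) := by
    refine le_trans (mul_le_mul_of_nonneg_left ?_ (by positivity)) e3
    rw [← mul_div_assoc]
    exact hc
  have e5 : (J + 1 : ℝ) * c₁ ≤ 4 := by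
    by_contra h5
    push Not at h5
    nlinarith
  linarith

/-- Splitting a class into finer classes. -/
lemma class_split {μ : Set ℕ → ℝ} (h : FinAddInv μ) {Q M : ℕ} (hQ : 0 < Q) (hM : 0 < M) (c : ℕ)
    (A : Set ℕ) :
    ∑ i ∈ Finset.range M, μ {z | z ≡ c % Q + Q * i [MOD Q * M] ∧ z ∈ A} =
      μ {z | z ≡ c [MOD Q] ∧ z ∈ A} := by
  rw [fai_sum_eq h]
  · congr 1
    ext z
    simp only [Set.mem_ofPred_eq, Finset.mem_range]
    constructor
    · rintro ⟨i, hi, h1, h2⟩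
      refine ⟨?_, h2⟩
      have h3 : z ≡ c % Q + Q * i [MOD Q] := h1.of_mul_right M
      have h4 : c % Q + Q * i ≡ c + 0 [MOD Q] :=
        (Nat.mod_modEq c Q).add (Nat.modEq_zero_iff_dvd.2 (dvd_mul_right _ _))
      simpa using h3.trans h4
    · rintro ⟨h1, h2⟩
      refine ⟨(z / Q) % M, Nat.mod_lt _ hM, ?_, h2⟩
      have e1 : c % Q = z % Q := h1.symm
      have e2 : z = z % Q + Q * (z / Q) := (Nat.mod_add_div z Q).symm
      rw [e1]
      conv_lhs => rw [e2]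
      apply Nat.ModEq.add_left
      exact Nat.ModEq.mul_left' Q (Nat.mod_modEq (z / Q) M).symm
  · intro i hi j hj hij
    rw [Finset.mem_range] at hi hj
    rw [Set.disjoint_left]
    rintro z ⟨h1, -⟩ ⟨h2, -⟩
    apply hij
    have h3 : c % Q + Q * i ≡ c % Q + Q * j [MOD Q * M] := h1.symm.trans h2
    have h4 : Q * i ≡ Q * j [MOD Q * M] := Nat.ModEq.add_left_cancel' _ h3
    have h5 : i ≡ j [MOD M] := Nat.ModEq.mul_left_cancel' hQ.ne' h4
    exact Nat.ModEq.eq_of_lt_of_lt h5 hi hj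

end Pool.Agent.H59.MR
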