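import Pool.Agent.H59.MR.Cov

set_option autoImplicit false

open Finset Filter Topology

namespace Pool.Agent.H59.MR

open Pool.Agent.H24.MR

/-- Pointwise: a window with few disagreements with its first value has a large square sum. -/
lemma window_sq (W b h x : ℕ) :
    (h : ℝ) ^ 2 - 4 * h * ∑ y ∈ Finset.range h,
      (if lam (W * x + b) ≠ lam (W * x + b + W * y) then (1 : ℝ) else 0) ≤
    (∑ y ∈ Finset.range h, lam (W * (x + y) + b)) ^ 2 := by
  set B := ∑ y ∈ Finset.range h,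
      (if lam (W * x + b) ≠ lam (W * x + b + W * y) then (1 : ℝ) else 0) with hB
  have e : ∑ y ∈ Finset.range h, lam (W * (x + y) + b) = lam (W * x + b) * (h - 2 * B) := by
    rw [hB, Finset.mul_sum, mul_sub, Finset.mul_sum]
    have : lam (W * x + b) * (h : ℝ) = ∑ y ∈ Finset.range h, lam (W * x + b) := by
      rw [Finset.sum_const, Finset.card_range, nsmul_eq_mul, mul_comm]
    rw [this, ← Finset.sum_sub_distrib]
    apply Finset.sum_congr rfl
    intro y _
    rw [show W * (x + y) + b = W * x + b + W * y by ring]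
    rcases lam_or (W * x + b) with h1 | h1 <;> rcases lam_or (W * x + b + W * y) with h2 | h2 <;>
      rw [h1, h2] <;> norm_num
  rw [e, mul_pow]
  have e2 : lam (W * x + b) ^ 2 = 1 := by
    rcases lam_or (W * x + b) with h1 | h1 <;> rw [h1] <;> norm_num
  rw [e2, one_mul]
  nlinarith [sq_nonneg B]

/-- Uniform disagreement bound for all multiples. -/
lemma uniform_bound {μ : Set ℕ → ℝ} (hμ : FinAddInv μ) {Q K u m J : ℕ} {τ η c₁ : ℝ}
    {G : Finset ℕ} (hQ : 0 < Q) (hη : 0 < η)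
    (hG : ∀ p ∈ G, p.Prime ∧ p ≡ 1 [MOD Q] ∧ 2 ^ m < p ∧ p ≤ 2 ^ (m + 1))
    (hGd : ∀ p ∈ G, μ {y | y ≡ u [MOD Q] ∧ lam y * lam (y + p * K) ≠ τ} ≤ 100 * η / Q)
    (hD : c₁ * 2 ^ m / Q ≤ (((G ×ˢ G).image (fun pq => (pq.1 : ℤ) - pq.2)).card : ℝ))
    (hJ : 4 < (J + 1) * c₁) (hQT : Q ≤ 2 ^ m) {y : ℕ} (hy : J * Q * y ≤ 2 ^ m) :
    μ {z | z ≡ u + K [MOD Q] ∧ z ∈ {z | lam z ≠ lam (z + Q * (J.factorial * K) * y)}} ≤
      400 * J.factorial * η / Q := by
  have hset : μ {z | z ≡ u + K [MOD Q] ∧ z ∈ {z | lam z ≠ lam (z + Q * (J.factorial * K) * y)}} =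
      Dl μ Q (u + K) 0 (Q * (J.factorial * K) * y) := by
    unfold Dl
    simp
  rw [hset]
  have hQr : (0 : ℝ) < Q := by exact_mod_cast hQ
  rcases Nat.eq_zero_or_pos y with hy0 | hy0
  · subst hy0
    have : Dl μ Q (u + K) 0 (Q * (J.factorial * K) * 0) = 0 := by
      unfold Dl
      simp [fai_empty hμ]
    rw [this]
    positivity
  classical
  obtain ⟨k, hk1, hkJ, e, he, e', he', hee⟩ := exists_diff (T := 2 ^ m) (y := y) (J := J)
    (c₁ := c₁) (D := (G ×ˢ G).image (fun pq => (pq.1 : ℤ) - pq.2)) hQ hQT (by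
      intro e he
      rw [Finset.mem_image] at he
      obtain ⟨⟨p, q⟩, hpq, rfl⟩ := he
      rw [Finset.mem_product] at hpq
      obtain ⟨-, hp1, hp2, hp3⟩ := hG p hpq.1
      obtain ⟨-, hq1, hq2, hq3⟩ := hG q hpq.2
      simp only
      have hpq' : q ≡ p [MOD Q] := hq1.trans hp1.symm
      refine ⟨(Nat.modEq_iff_dvd.1 hpq'), ?_, ?_⟩
      · have a1 : ((2 : ℤ) ^ m) < p := by exact_mod_cast hp2
        have a2 : (q : ℤ) ≤ 2 ^ (m + 1) := by exact_mod_cast hq3
        rw [pow_succ] at a2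
        push_cast
        linarith
      · have a1 : ((2 : ℤ) ^ m) < q := by exact_mod_cast hq2
        have a2 : (p : ℤ) ≤ 2 ^ (m + 1) := by exact_mod_cast hp3
        rw [pow_succ] at a2
        push_cast
        linarith) (by push_cast; exact hD) hJ hy0 hy
  rw [Finset.mem_image] at he he'
  obtain ⟨⟨p, q⟩, hpq, rfl⟩ := he
  obtain ⟨⟨p', q'⟩, hpq', rfl⟩ := he'
  rw [Finset.mem_product] at hpq hpq'
  simp only at hee hpq hpq'
  have hs : p + q' = q + p' + k * Q * y := by
    have : (p : ℤ) + q' = q + p' + k * Q * y := by linarith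
    exact_mod_cast this
  have hfour := Dl_four (K := K) hμ hQ (hG p hpq.1).2.1 (hG q hpq.2).2.1 (hG p' hpq'.1).2.1 hs
    (hGd p hpq.1) (hGd q hpq.2) (hGd p' hpq'.1) (hGd q' hpq'.2)
  obtain ⟨l, hl⟩ : k ∣ J.factorial := Nat.dvd_factorial (by omega) hkJ
  have hmul := Dl_mul hμ (Q := Q) (s := K * (k * Q * y)) ⟨K * k * y, by ring⟩ (u + K) l
  have e1 : l * (K * (k * Q * y)) = Q * (J.factorial * K) * y := by
    rw [hl]; ring
  rw [e1] at hmul
  refine le_trans hmul ?_
  have hlJ : l ≤ J.factorial := Nat.le_of_dvd (Nat.factorial_pos J) ⟨k, by rw [hl]; ring⟩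
  have hlJ' : (l : ℝ) ≤ J.factorial := by exact_mod_cast hlJ
  calc (l : ℝ) * Dl μ Q (u + K) 0 (K * (k * Q * y)) ≤ l * (4 * (100 * η / Q)) := by
        apply mul_le_mul_of_nonneg_left hfour (Nat.cast_nonneg _)
    _ ≤ J.factorial * (4 * (100 * η / Q)) := by
        apply mul_le_mul_of_nonneg_right hlJ'
        positivity
    _ = _ := by ring

/-- The final contradiction with the theorem of Matomaki and Radziwill. -/
lemma contra {U : Ultrafilter ℕ} {N : ℕ → ℕ}
    (hN : Tendsto N (U : Filter ℕ) atTop) {W b h : ℕ} (hW : 0 < W) (hb : b < W) (hh : 0 < h)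
    (hmr : ∃ N₀ : ℕ, ∀ N, N₀ ≤ N →
      ∑ z ∈ Finset.range N, (∑ y ∈ Finset.range h, lam (W * (z + y) + b)) ^ 2 ≤
        (1 / 4 : ℝ) * h ^ 2 * N)
    (hsum : ∑ y ∈ Finset.range h,
      dens U N {z | z ≡ b [MOD W] ∧ z ∈ {z | lam z ≠ lam (z + W * y)}} ≤ h * (1 / 64) / W) :
    False := by
  classical
  obtain ⟨N₀, hN₀⟩ := hmr
  have hWr : (0 : ℝ) < W := by exact_mod_cast hW
  have hhr : (0 : ℝ) < h := by exact_mod_cast hh
  have ht : Tendsto (fun k => ∑ y ∈ Finset.range h,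
      ratio {z | z ≡ b [MOD W] ∧ z ∈ {z | lam z ≠ lam (z + W * y)}} (N k)) (U : Filter ℕ)
      (𝓝 (∑ y ∈ Finset.range h,
        dens U N {z | z ≡ b [MOD W] ∧ z ∈ {z | lam z ≠ lam (z + W * y)}})) :=
    tendsto_finsetSum _ (fun y _ => tendsto_dens U N _)
  have hlt : ∑ y ∈ Finset.range h,
      dens U N {z | z ≡ b [MOD W] ∧ z ∈ {z | lam z ≠ lam (z + W * y)}} < h * (1 / 32) / W := by
    refine lt_of_le_of_lt hsum ?_
    rw [div_lt_div_iff_of_pos_right hWr]
    linarith
  obtain ⟨k, hk1, hk2⟩ := ((ht.eventually (gt_mem_nhds hlt)).and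
    (hN.eventually (eventually_ge_atTop (W * (N₀ + 1))))).exists
  set M := N k / W with hM
  have hM1 : N₀ + 1 ≤ M := by
    rw [hM, Nat.le_div_iff_mul_le hW]
    linarith
  have hMr : (1 : ℝ) ≤ M := by exact_mod_cast (by omega : 1 ≤ M)
  have hNk : (N k : ℝ) ≤ W * (M + 1) := by
    have := Nat.lt_mul_div_succ (N k) hW
    rw [← hM] at this
    exact_mod_cast this.le
  have hNkpos : (0 : ℝ) < N k := by
    have : 0 < W * (N₀ + 1) := by positivity
    exact_mod_cast lt_of_lt_of_le this hk2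
  -- counting
  have hcount : ∀ y ∈ Finset.range h,
      ∑ x ∈ Finset.range M, (if lam (W * x + b) ≠ lam (W * x + b + W * y) then (1 : ℝ) else 0) ≤
        ratio {z | z ≡ b [MOD W] ∧ z ∈ {z | lam z ≠ lam (z + W * y)}} (N k) * N k := by
    intro y _
    unfold ratio
    rw [div_mul_cancel₀ _ hNkpos.ne', ← Finset.sum_filter, Finset.sum_const, nsmul_eq_mul,
      mul_one]
    norm_cast
    apply Finset.card_le_card_of_injOn (fun x => W * x + b)
    · intro x hx
      rw [Finset.mem_coe, Finset.mem_filter, Finset.mem_range] at hx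
      rw [Finset.mem_coe, Finset.mem_filter, Finset.mem_range]
      refine ⟨?_, ?_, hx.2⟩
      · have h1 : W * (x + 1) ≤ N k := by
          have : x + 1 ≤ N k / W := hx.1
          rw [Nat.le_div_iff_mul_le hW] at this
          linarith
        have : W * (x + 1) = W * x + W := by ring
        simp only
        omega
      · simp only
        show (W * x + b) % W = b % W
        rw [Nat.mul_add_mod]
    · intro x _ x' _ hxx
      simp only at hxx
      have : W * x = W * x' := by omega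
      exact Nat.eq_of_mul_eq_mul_left hW this
  have hB : ∑ x ∈ Finset.range M, ∑ y ∈ Finset.range h,
      (if lam (W * x + b) ≠ lam (W * x + b + W * y) then (1 : ℝ) else 0) ≤ h * (1 / 16) * M := by
    rw [Finset.sum_comm]
    refine le_trans (Finset.sum_le_sum hcount) ?_
    rw [← Finset.sum_mul]
    calc (∑ y ∈ Finset.range h,
        ratio {z | z ≡ b [MOD W] ∧ z ∈ {z | lam z ≠ lam (z + W * y)}} (N k)) * N k
        ≤ (h * (1 / 32) / W) * (W * (M + 1)) := by
          apply mul_le_mul hk1.le hNk hNkpos.le (by positivity)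
      _ = h * (1 / 32) * (M + 1) := by field_simp
      _ ≤ h * (1 / 32) * (2 * M) := by
          apply mul_le_mul_of_nonneg_left (by linarith) (by positivity)
      _ = _ := by ring
  have hlow : ∑ x ∈ Finset.range M, ((h : ℝ) ^ 2 - 4 * h * ∑ y ∈ Finset.range h,
      (if lam (W * x + b) ≠ lam (W * x + b + W * y) then (1 : ℝ) else 0)) ≤
      ∑ x ∈ Finset.range M, (∑ y ∈ Finset.range h, lam (W * (x + y) + b)) ^ 2 :=
    Finset.sum_le_sum (fun x _ => window_sq W b h x)
  rw [Finset.sum_sub_distrib, ← Finset.mul_sum, Finset.sum_const, Finset.card_range,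
    nsmul_eq_mul] at hlow
  have hup := hN₀ M (by omega)
  have h1 : 4 * (h : ℝ) * ∑ x ∈ Finset.range M, ∑ y ∈ Finset.range h,
      (if lam (W * x + b) ≠ lam (W * x + b + W * y) then (1 : ℝ) else 0) ≤
      4 * h * (h * (1 / 16) * M) := mul_le_mul_of_nonneg_left hB (by positivity)
  have h2 : (0 : ℝ) < h ^ 2 * M := by positivity
  nlinarith

/-- No sign has density zero along an ultrafilter. -/
theorem no_null (hRA : StatementRA) (hEN : StatementEN) (hPS : StatementPS) (hMR : StatementMR)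
    (r : ℕ) (α : Fin r → ℤ) (ε : Fin r → ℕ) (q n₀ : ℕ) (hα : Function.Injective α)
    (hε : ∀ i, 1 ≤ ε i) (hodd : ∃ i, Odd (ε i)) (hq : 0 < q)
    (hF : ∏ i, ArithmeticFunction.moebius ((n₀ + α i).toNat) ^ ε i ≠ 0)
    (U : Ultrafilter ℕ) (N : ℕ → ℕ) (σ : ℤ) (hN : Tendsto N (U : Filter ℕ) atTop)
    (hσ : σ = 1 ∨ σ = -1)
    (h0 : dens U N {n | n ≡ n₀ [MOD q] ∧
      ∏ i, ArithmeticFunction.moebius (((n : ℤ) + α i).toNat) ^ ε i = -σ} = 0) : False := by
  classical
  obtain ⟨c₀, hc₀, hEN'⟩ := hEN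
  obtain ⟨c₁, hc₁, hPS'⟩ := hPS c₀ hc₀
  obtain ⟨J, hJ⟩ := exists_nat_gt (4 / c₁)
  have hJ' : 4 < (J + 1) * c₁ := by
    rw [div_lt_iff₀ hc₁] at hJ
    nlinarith
  set R := J.factorial with hR
  have hRpos : 0 < R := Nat.factorial_pos J
  have hRr : (0 : ℝ) < R := by exact_mod_cast hRpos
  obtain ⟨Q, K, u₀, τ, hQ, hQe, hK, hRA'⟩ := hRA r α ε q n₀ hα hε hodd hq hF U N σ hN hσ h0
    (1 / (64 * 400 * R)) (by positivity)
  set η : ℝ := 1 / (64 * 400 * R) with hη
  have hηpos : 0 < η := by positivity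
  have hμ := finAddInv_dens hN
  set W := Q * (R * K) with hW
  have hWpos : 0 < W := by positivity
  choose h0' hh0' using fun b : ℕ => hMR W b (1 / 4) hWpos (by norm_num)
  set h := 1 + ∑ b ∈ Finset.range W, h0' b with hh
  have hle : ∀ b < W, h0' b ≤ h := by
    intro b hb
    have := Finset.single_le_sum (f := h0') (fun _ _ => Nat.zero_le _) (Finset.mem_range.2 hb)
    omega
  obtain ⟨m₁, hm₁⟩ := hPS' Q hQ hQe
  obtain ⟨m, hm, G, hG, hGcard, hGd⟩ := hEN' (dens U N) hμ lam Q K u₀ τ η lam_or hQ hηpos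
    (fun p hp hp1 => hRA' p (Or.inr hp) hp1) (m₁ + (J * Q * h + Q))
  have hm2 : m < 2 ^ m := Nat.lt_two_pow_self
  have hD := hm₁ m (by omega) G hG hGcard
  have hQT : Q ≤ 2 ^ m := by omega
  have hJT : J * Q * h ≤ 2 ^ m := by omega
  have hunif : ∀ y ∈ Finset.range h,
      dens U N {z | z ≡ u₀ + K [MOD Q] ∧ z ∈ {z | lam z ≠ lam (z + W * y)}} ≤ (1 / 64) / Q := by
    intro y hy
    rw [Finset.mem_range] at hy
    have h1 := uniform_bound (y := y) hμ hQ hηpos hG hGd hD hJ' hQT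
      (le_trans (Nat.mul_le_mul_left _ hy.le) hJT)
    refine le_trans h1 (le_of_eq ?_)
    rw [hη, ← hR]
    field_simp
  -- splitting into classes mod W
  have hRK : 0 < R * K := by positivity
  have hsplit : ∑ i ∈ Finset.range (R * K), ∑ y ∈ Finset.range h,
      dens U N {z | z ≡ (u₀ + K) % Q + Q * i [MOD W] ∧ z ∈ {z | lam z ≠ lam (z + W * y)}} ≤
      ∑ i ∈ Finset.range (R * K), (h * (1 / 64) / W : ℝ) := by
    rw [Finset.sum_comm]
    calc ∑ y ∈ Finset.range h, ∑ i ∈ Finset.range (R * K),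
          dens U N {z | z ≡ (u₀ + K) % Q + Q * i [MOD W] ∧ z ∈ {z | lam z ≠ lam (z + W * y)}}
        = ∑ y ∈ Finset.range h,
          dens U N {z | z ≡ u₀ + K [MOD Q] ∧ z ∈ {z | lam z ≠ lam (z + W * y)}} := by
          apply Finset.sum_congr rfl
          intro y _
          exact class_split hμ hQ hRK (u₀ + K) _
      _ ≤ ∑ y ∈ Finset.range h, ((1 / 64) / Q : ℝ) := Finset.sum_le_sum hunif
      _ = ∑ i ∈ Finset.range (R * K), (h * (1 / 64) / W : ℝ) := by
          rw [Finset.sum_const, Finset.sum_const, Finset.card_range, Finset.card_range,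
            nsmul_eq_mul, nsmul_eq_mul, hW]
          have hQr : (0 : ℝ) < Q := by exact_mod_cast hQ
          have hKr : (0 : ℝ) < K := by exact_mod_cast hK
          push_cast
          field_simp
  obtain ⟨i, hi, hsum⟩ := Finset.exists_le_of_sum_le (Finset.nonempty_range_iff.2 hRK.ne') hsplit
  rw [Finset.mem_range] at hi
  have hb : (u₀ + K) % Q + Q * i < W := by
    have h1 : (u₀ + K) % Q < Q := Nat.mod_lt _ hQ
    have h2 : Q * (i + 1) ≤ W := Nat.mul_le_mul_left Q hi
    have h3 : Q * (i + 1) = Q * i + Q := by ring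
    omega
  exact contra hN hWpos hb (by omega) (hh0' _ h (hle _ hb)) hsum

open Classical in
/-- **Assembly.** Both signs of the product have positive lower density, in every residue class in
which the product does not vanish identically. -/
theorem T1_of (hRA : StatementRA) (hEN : StatementEN) (hPS : StatementPS) (hMR : StatementMR)
    (r : ℕ) (α : Fin r → ℤ) (ε : Fin r → ℕ) (q n₀ : ℕ) (hα : Function.Injective α)
    (hε : ∀ i, 1 ≤ ε i) (hodd : ∃ i, Odd (ε i)) (hq : 0 < q)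
    (hF : ∏ i, ArithmeticFunction.moebius ((n₀ + α i).toNat) ^ ε i ≠ 0)
    (σ : ℤ) (hσ : σ = 1 ∨ σ = -1) :
    ∃ c : ℝ, 0 < c ∧ ∀ᶠ N : ℕ in atTop, c * N ≤
      (((Finset.range N).filter (fun n => n ≡ n₀ [MOD q] ∧
        ∏ i, ArithmeticFunction.moebius (((n : ℤ) + α i).toNat) ^ ε i = σ)).card : ℝ) := by
  by_contra hcon
  push Not at hcon
  have hfreq : ∀ k : ℕ, ∃ N : ℕ, k ≤ N ∧
      (((Finset.range N).filter (fun n => n ≡ n₀ [MOD q] ∧
        ∏ i, ArithmeticFunction.moebius (((n : ℤ) + α i).toNat) ^ ε i = σ)).card : ℝ) <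
        (1 / ((k : ℝ) + 1)) * N := by
    intro k
    have h1 := hcon (1 / ((k : ℝ) + 1)) (by positivity)
    rw [Filter.frequently_atTop] at h1
    obtain ⟨N, hN, h2⟩ := h1 k
    exact ⟨N, hN, h2⟩
  choose N hN hlt using hfreq
  have hNt : Tendsto N atTop atTop := tendsto_atTop_mono hN tendsto_id
  have hNU : Tendsto N (Filter.hyperfilter ℕ : Filter ℕ) atTop :=
    hNt.mono_left Nat.hyperfilter_le_atTop
  refine no_null hRA hEN hPS hMR r α ε q n₀ hα hε hodd hq hF (Filter.hyperfilter ℕ) N (-σ) hNU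
    (by rcases hσ with h | h <;> rw [h] <;> norm_num) ?_
  rw [neg_neg]
  apply dens_eq_of_tendsto
  have h0 : Tendsto (fun k : ℕ => (1 : ℝ) / ((k : ℝ) + 1)) (Filter.hyperfilter ℕ : Filter ℕ)
      (𝓝 0) := tendsto_one_div_add_atTop_nhds_zero_nat.mono_left Nat.hyperfilter_le_atTop
  refine squeeze_zero (fun k => ratio_nonneg _ _) (fun k => ?_) h0
  unfold ratio
  rcases Nat.eq_zero_or_pos (N k) with hz | hz
  · rw [hz]
    simp only [Nat.cast_zero, div_zero]
    positivity
  · rw [div_le_iff₀ (by exact_mod_cast hz)]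
    refine le_trans (le_of_eq ?_) (hlt k).le
    congr 2
    ext x
    simp only [Finset.mem_filter, Set.mem_ofPred_eq]

end Pool.Agent.H59.MR
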